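import Pool.Agent.Lib.MP_de94ef_pr.V.Conv

/-!
The bound at every scale gives the bound along a sequence of points.
-/

open MeasureTheory ProbabilityTheory Filter

namespace Pool.Agent.Lib.MP_de94ef_pr.Q.AS

theorem io_of_every
    (H : ∀ a : ℝ, a < 1 / 5 → ∃ p : ℝ, 0 < p ∧ ∃ n0 : ℕ,
    ∀ (Ω : Type) [MeasureSpace Ω] [IsProbabilityMeasure (volume : Measure Ω)]
    (X : Sym2 (ℤ × ℤ) → Ω → ℝ) (T : Ω → ℤ × ℤ → ℝ) (μ : ℝ × ℝ → ℝ),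
    (∀ e, Measurable (X e)) →
    iIndepFun X (volume : Measure Ω) →
    (∀ e, Measure.map (X e) (volume : Measure Ω) = expMeasure 1) →
    (∀ ω v, T ω v = sInf {s : ℝ | ∃ n : ℕ, ∃ p : ℕ → ℤ × ℤ, p 0 = 0 ∧ p n = v ∧
        (∀ i < n, |(p (i + 1)).1 - (p i).1| + |(p (i + 1)).2 - (p i).2| = 1) ∧
        s = ∑ i ∈ Finset.range n, X s(p i, p (i + 1)) ω}) →
    (∀ (x : ℝ × ℝ) (c : ℝ), 0 ≤ c → μ (c • x) = c * μ x) →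
    Continuous μ →
    (∀ z : ℤ × ℤ, ∀ᵐ ω ∂(volume : Measure Ω),
        Tendsto (fun n : ℕ => T ω ((n : ℤ) • z) / (n : ℝ)) atTop
          (nhds (μ ((z.1 : ℝ), (z.2 : ℝ))))) →
    ∀ n : ℕ, n0 ≤ n → ∃ v : ℤ × ℤ, |(v.1 : ℝ)| + |(v.2 : ℝ)| ≤ n ∧
      p ≤ ((volume : Measure Ω) {ω | T ω v ≤ μ ((v.1 : ℝ), (v.2 : ℝ)) - (n : ℝ) ^ a}).toReal ∧
      p ≤ ((volume : Measure Ω) {ω | μ ((v.1 : ℝ), (v.2 : ℝ)) + (n : ℝ) ^ a ≤ T ω v}).toReal) :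
    ∀ a : ℝ, a < 1 / 5 → ∃ p : ℝ, 0 < p ∧
    ∀ (Ω : Type) [MeasureSpace Ω] [IsProbabilityMeasure (volume : Measure Ω)]
    (X : Sym2 (ℤ × ℤ) → Ω → ℝ) (T : Ω → ℤ × ℤ → ℝ) (μ : ℝ × ℝ → ℝ),
    (∀ e, Measurable (X e)) →
    iIndepFun X (volume : Measure Ω) →
    (∀ e, Measure.map (X e) (volume : Measure Ω) = expMeasure 1) →
    (∀ ω v, T ω v = sInf {s : ℝ | ∃ n : ℕ, ∃ p : ℕ → ℤ × ℤ, p 0 = 0 ∧ p n = v ∧
        (∀ i < n, |(p (i + 1)).1 - (p i).1| + |(p (i + 1)).2 - (p i).2| = 1) ∧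
        s = ∑ i ∈ Finset.range n, X s(p i, p (i + 1)) ω}) →
    (∀ (x : ℝ × ℝ) (c : ℝ), 0 ≤ c → μ (c • x) = c * μ x) →
    Continuous μ →
    (∀ z : ℤ × ℤ, ∀ᵐ ω ∂(volume : Measure Ω),
        Tendsto (fun n : ℕ => T ω ((n : ℤ) • z) / (n : ℝ)) atTop
          (nhds (μ ((z.1 : ℝ), (z.2 : ℝ))))) →
    ∀ C : ℝ, ∃ v : ℤ × ℤ, v ≠ 0 ∧
      p ≤ ((volume : Measure Ω) {ω | T ω v ≤
        μ ((v.1 : ℝ), (v.2 : ℝ)) - C * (|(v.1 : ℝ)| + |(v.2 : ℝ)|) ^ a}).toReal ∧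
      p ≤ ((volume : Measure Ω) {ω |
        μ ((v.1 : ℝ), (v.2 : ℝ)) + C * (|(v.1 : ℝ)| + |(v.2 : ℝ)|) ^ a ≤ T ω v}).toReal := by
  intro a ha
  obtain ⟨b, b0, b1, b2⟩ : ∃ b : ℝ, 0 ≤ b ∧ a ≤ b ∧ b < 1 / 5 :=
    ⟨max 0 a, le_max_left _ _, le_max_right _ _, max_lt (by norm_num) ha⟩
  obtain ⟨p, p0, n0, h⟩ := H ((b + 1 / 5) / 2) (by linarith)
  refine ⟨p, p0, fun Ω _ _ X T μ h1 h2 h3 h4 h5 h6 h7 C => ?_⟩
  obtain ⟨n, ⟨n1', n2⟩, n3⟩ := (((eventually_ge_atTop n0).and (eventually_ge_atTop 1)).and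
    (((tendsto_rpow_atTop (show 0 < (1 / 5 - b) / 2 by linarith)).comp
      tendsto_natCast_atTop_atTop).eventually_ge_atTop |C|)).exists
  have n0' : (0 : ℝ) < n := by exact_mod_cast n2
  obtain ⟨v, hv, c1, c2⟩ := h Ω X T μ h1 h2 h3 h4 h5 h6 h7 n n1'
  obtain ⟨Φ, -, hT, -⟩ := transfer h1 h2 h3 h4 h5 h6 h7
  have v0 : v ≠ 0 := by
    rintro rfl
    have m0 : μ (((0 : ℤ × ℤ).1 : ℝ), ((0 : ℤ × ℤ).2 : ℝ)) = 0 := by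
      have := h5 (0, 0) 0 le_rfl
      rw [zero_smul, zero_mul] at this
      simpa [Prod.mk_zero_zero] using this
    have z : (volume : Measure Ω) {ω | T ω 0 ≤ μ (((0 : ℤ × ℤ).1 : ℝ), ((0 : ℤ × ℤ).2 : ℝ)) -
        (n : ℝ) ^ ((b + 1 / 5) / 2)} = 0 := by
      refine measure_mono_null (fun ω hω => ?_) (ae_iff.1 hT)
      intro h'
      have a1 : T ω 0 ≤ _ := hω
      have a2 := TT_nonneg (Φ ω) 0 0
      rw [← h' 0] at a2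
      linarith [Real.rpow_pos_of_pos n0' ((b + 1 / 5) / 2)]
    rw [z] at c1
    exact absurd c1 (by simpa using p0)
  have v1 : 1 ≤ |(v.1 : ℝ)| + |(v.2 : ℝ)| := V.one_le_n1 v0
  have key : C * (|(v.1 : ℝ)| + |(v.2 : ℝ)|) ^ a ≤ (n : ℝ) ^ ((b + 1 / 5) / 2) := by
    rw [show (b + 1 / 5) / 2 = (1 / 5 - b) / 2 + b by ring, Real.rpow_add n0']
    exact mul_le_mul ((le_abs_self C).trans n3) ((Real.rpow_le_rpow_of_exponent_le v1 b1).trans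
      (Real.rpow_le_rpow (by linarith) hv b0)) (by positivity) (by positivity)
  refine ⟨v, v0, c1.trans (ENNReal.toReal_mono (measure_ne_top _ _) (measure_mono fun ω hω => ?_)),
    c2.trans (ENNReal.toReal_mono (measure_ne_top _ _) (measure_mono fun ω hω => ?_))⟩
  · exact le_trans hω (sub_le_sub_left key _)
  · exact le_trans (add_le_add le_rfl key) hω

end Pool.Agent.Lib.MP_de94ef_pr.Q.AS

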