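import Pool.Agent.Lib.MP_de94ef_pr.AS.ImplVar

/-!
Each estimate of the problem fails, with probability bounded below, at relative error
`t ^ (b - 1)` when `b < 1 / 5`.
-/

open MeasureTheory ProbabilityTheory Filter
open scoped Pointwise

namespace Pool.Agent.Lib.MP_de94ef_pr.Q.AS

theorem shape_fails (b : ℝ) (b0 : 0 < b) (b1 : b < 1 / 5) : ∃ p : ℝ, 0 < p ∧
    ∀ (Ω : Type) [MeasureSpace Ω] [IsProbabilityMeasure (volume : Measure Ω)]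
    (X : Sym2 (ℤ × ℤ) → Ω → ℝ) (T : Ω → ℤ × ℤ → ℝ) (μ : ℝ × ℝ → ℝ),
    (∀ e, Measurable (X e)) →
    iIndepFun X (volume : Measure Ω) →
    (∀ e, Measure.map (X e) (volume : Measure Ω) = expMeasure 1) →
    (∀ ω v, T ω v = sInf {s : ℝ | ∃ n : ℕ, ∃ p : ℕ → ℤ × ℤ, p 0 = 0 ∧ p n = v ∧
        (∀ i < n, |(p (i + 1)).1 - (p i).1| + |(p (i + 1)).2 - (p i).2| = 1) ∧
        s = ∑ i ∈ Finset.range n, X s(p i, p (i + 1)) ω}) →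
    (∀ (x : ℝ × ℝ) (c : ℝ), 0 ≤ c → μ (c • x) = c * μ x) →
    Continuous μ →
    (∀ z : ℤ × ℤ, ∀ᵐ ω ∂(volume : Measure Ω),
        Tendsto (fun n : ℕ => T ω ((n : ℤ) • z) / (n : ℝ)) atTop
          (nhds (μ ((z.1 : ℝ), (z.2 : ℝ))))) →
      (∃ᶠ t : ℝ in atTop, p ≤ ((volume : Measure Ω) {ω | ¬ ({x : ℝ × ℝ | ∃ v : ℤ × ℤ, T ω v ≤ t ∧
            |x.1 - (v.1 : ℝ)| ≤ 1 / 2 ∧ |x.2 - (v.2 : ℝ)| ≤ 1 / 2} ⊆
            ((1 + t ^ (-1 + b)) * t) • {x : ℝ × ℝ | μ x ≤ 1})}).toReal) ∧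
      (∃ᶠ t : ℝ in atTop, p ≤ ((volume : Measure Ω) {ω | ¬ (((1 - t ^ (-1 + b)) * t) •
            {x : ℝ × ℝ | μ x ≤ 1} ⊆ {x : ℝ × ℝ | ∃ v : ℤ × ℤ, T ω v ≤ t ∧
            |x.1 - (v.1 : ℝ)| ≤ 1 / 2 ∧ |x.2 - (v.2 : ℝ)| ≤ 1 / 2})}).toReal) := by
  obtain ⟨p, p0, h⟩ := io b b1
  refine ⟨p, p0, fun Ω _ _ X T μ h1 h2 h3 h4 h5 h6 h7 => ?_⟩
  obtain ⟨Φ, hΦ, hT, hμ⟩ := transfer h1 h2 h3 h4 h5 h6 h7
  have key : ∀ t0 : ℝ, ∃ v : ℤ × ℤ, ∃ N m : ℝ, N = |(v.1 : ℝ)| + |(v.2 : ℝ)| ∧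
      m = μ ((v.1 : ℝ), (v.2 : ℝ)) ∧ 1 ≤ N ^ b ∧ N ^ b ≤ N ∧ m ≤ N ∧ (|t0| + 3) * N ^ b ≤ m ∧
      p ≤ ((volume : Measure Ω) {ω | T ω v ≤ m - (|t0| + 3) * N ^ b}).toReal ∧
      p ≤ ((volume : Measure Ω) {ω | m + (|t0| + 3) * N ^ b ≤ T ω v}).toReal := fun t0 => by
    obtain ⟨v, hv, c1, c2⟩ := h Ω X T μ h1 h2 h3 h4 h5 h6 h7 (|t0| + 3)
    have n1' : 1 ≤ |(v.1 : ℝ)| + |(v.2 : ℝ)| := V.one_le_n1 hv
    refine ⟨v, _, _, rfl, rfl, Real.one_le_rpow n1' b0.le, ?_, hμ.le _, ?_, c1, c2⟩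
    · exact (Real.rpow_le_rpow_of_exponent_le n1' (by linarith : b ≤ 1)).trans_eq
        (Real.rpow_one _)
    · by_contra hc
      have : (volume : Measure Ω) {ω | T ω v ≤ μ ((v.1 : ℝ), (v.2 : ℝ)) -
          (|t0| + 3) * (|(v.1 : ℝ)| + |(v.2 : ℝ)|) ^ b} = 0 := by
        refine measure_mono_null (fun ω hω => ?_) (ae_iff.1 hT)
        intro hh
        have a1 : T ω v ≤ _ := hω
        have a2 := TT_nonneg (Φ ω) 0 v
        rw [hh v] at a1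
        linarith [not_le.1 hc]
      rw [this] at c1
      simp at c1
      linarith
  have pw : ∀ t : ℝ, 0 < t → t ^ (-1 + b) * t = t ^ b := fun t ht => by
    rw [Real.rpow_add ht, Real.rpow_neg_one]; field_simp
  constructor
  · rw [frequently_atTop]
    intro t0
    obtain ⟨v, N, m, hN, hm, a1, a2, a3, a4, c1, -⟩ := key t0
    have u0 := abs_nonneg t0
    have u1 := le_abs_self t0
    have t1 : |t0| + 1 ≤ m - 2 * N ^ b := by nlinarith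
    refine ⟨m - 2 * N ^ b, by linarith, c1.trans (ENNReal.toReal_mono (measure_ne_top _ _)
      (measure_mono fun ω hω hs => ?_))⟩
    have d1 : T ω v ≤ m - (|t0| + 3) * N ^ b := hω
    obtain ⟨y, hy, e⟩ := hs (show ((v.1 : ℝ), (v.2 : ℝ)) ∈ _ from
      ⟨v, by nlinarith, by simp, by simp⟩)
    have hy' : μ y ≤ 1 := hy
    have t0' : 0 < m - 2 * N ^ b := by linarith
    have d2 : (m - 2 * N ^ b) ^ b ≤ N ^ b := Real.rpow_le_rpow t0'.le (by linarith) b0.le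
    have d3 : 0 ≤ (m - 2 * N ^ b) ^ b := by positivity
    simp only at e
    rw [add_mul, one_mul, pw _ t0'] at e
    have d4 := h5 y (m - 2 * N ^ b + (m - 2 * N ^ b) ^ b) (by linarith)
    rw [e, ← hm] at d4
    nlinarith
  · rw [frequently_atTop]
    intro t0
    obtain ⟨v, N, m, hN, hm, a1, a2, a3, a4, -, c2⟩ := key t0
    have u0 := abs_nonneg t0
    have u1 := le_abs_self t0
    have t1 : |t0| + 3 ≤ m := by nlinarith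
    refine ⟨m + 2 * N ^ b, by linarith, c2.trans (ENNReal.toReal_mono (measure_ne_top _ _)
      (measure_mono fun ω hω hs => ?_))⟩
    have d1 : m + (|t0| + 3) * N ^ b ≤ T ω v := hω
    have t0' : 0 < m + 2 * N ^ b := by linarith
    have d2 : (m + 2 * N ^ b) ^ b ≤ 2 * N ^ b := by
      have e1 : (m + 2 * N ^ b) ^ b ≤ ((1 + 2) * N) ^ b :=
        Real.rpow_le_rpow t0'.le (by linarith) b0.le
      rw [Real.mul_rpow (by norm_num) (by linarith)] at e1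
      have e2 := rpow_one_add_le_one_add_mul_self (s := 2) (by norm_num) b0.le (by linarith)
      nlinarith
    obtain ⟨c, hc⟩ : ∃ c, c = m + 2 * N ^ b - (m + 2 * N ^ b) ^ b := ⟨_, rfl⟩
    have c0 : 0 < c := by linarith
    have d3 : ((v.1 : ℝ), (v.2 : ℝ)) ∈ ((1 - (m + 2 * N ^ b) ^ (-1 + b)) * (m + 2 * N ^ b)) •
        {x : ℝ × ℝ | μ x ≤ 1} := by
      rw [sub_mul, one_mul, pw _ t0', ← hc]
      refine ⟨c⁻¹ • ((v.1 : ℝ), (v.2 : ℝ)), ?_, smul_inv_smul₀ c0.ne' _⟩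
      change μ _ ≤ 1
      rw [h5 _ _ (inv_nonneg.2 c0.le), ← hm, inv_mul_le_iff₀ c0]
      linarith
    obtain ⟨w, w1, w2, w3⟩ := hs d3
    have eq : ∀ i j : ℤ, |(i : ℝ) - j| ≤ 1 / 2 → i = j := fun i j hij => by
      have : |i - j| < 1 := by
        have : |((i - j : ℤ) : ℝ)| < 1 := by push_cast; linarith
        exact_mod_cast this
      exact sub_eq_zero.1 (Int.abs_lt_one_iff.1 this)
    obtain rfl : v = w := Prod.ext (eq _ _ w2) (eq _ _ w3)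
    nlinarith

/-- With an exponent above `4 / 5` in place of `2 / 3`, each of the two estimates is false. -/
theorem halves_fail (Ω : Type) [MeasureSpace Ω] [IsProbabilityMeasure (volume : Measure Ω)]
    (X : Sym2 (ℤ × ℤ) → Ω → ℝ) (T : Ω → ℤ × ℤ → ℝ) (μ : ℝ × ℝ → ℝ)
    (h1 : ∀ e, Measurable (X e)) (h2 : iIndepFun X (volume : Measure Ω))
    (h3 : ∀ e, Measure.map (X e) (volume : Measure Ω) = expMeasure 1)
    (h4 : ∀ ω v, T ω v = sInf {s : ℝ | ∃ n : ℕ, ∃ p : ℕ → ℤ × ℤ, p 0 = 0 ∧ p n = v ∧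
        (∀ i < n, |(p (i + 1)).1 - (p i).1| + |(p (i + 1)).2 - (p i).2| = 1) ∧
        s = ∑ i ∈ Finset.range n, X s(p i, p (i + 1)) ω})
    (h5 : ∀ (x : ℝ × ℝ) (c : ℝ), 0 ≤ c → μ (c • x) = c * μ x) (h6 : Continuous μ)
    (h7 : ∀ z : ℤ × ℤ, ∀ᵐ ω ∂(volume : Measure Ω),
        Tendsto (fun n : ℕ => T ω ((n : ℤ) • z) / (n : ℝ)) atTop
          (nhds (μ ((z.1 : ℝ), (z.2 : ℝ)))))
    (θ : ℝ) (hθ : 4 / 5 < θ) : ∃ ζ : ℝ, 0 < ζ ∧ ζ < θ ∧ ∀ q : ℝ, 0 < q →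
      ¬ Asymptotics.IsBigO atTop
        (fun t : ℝ => ((volume : Measure Ω) {ω | ¬ ({x : ℝ × ℝ | ∃ v : ℤ × ℤ, T ω v ≤ t ∧
            |x.1 - (v.1 : ℝ)| ≤ 1 / 2 ∧ |x.2 - (v.2 : ℝ)| ≤ 1 / 2} ⊆
            ((1 + t ^ (-θ + ζ)) * t) • {x : ℝ × ℝ | μ x ≤ 1})}).toReal)
        (fun t : ℝ => t ^ (-q)) ∧
      ¬ Asymptotics.IsBigO atTop
        (fun t : ℝ => ((volume : Measure Ω) {ω | ¬ (((1 - t ^ (-θ + ζ)) * t) •
            {x : ℝ × ℝ | μ x ≤ 1} ⊆ {x : ℝ × ℝ | ∃ v : ℤ × ℤ, T ω v ≤ t ∧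
            |x.1 - (v.1 : ℝ)| ≤ 1 / 2 ∧ |x.2 - (v.2 : ℝ)| ≤ 1 / 2})}).toReal)
        (fun t : ℝ => t ^ (-q)) := by
  obtain ⟨b, b0, b1, b2⟩ : ∃ b : ℝ, 0 < b ∧ 1 - θ < b ∧ b < 1 / 5 := by
    obtain ⟨b, c1, c2⟩ := exists_between (max_lt (by norm_num : (0 : ℝ) < 1 / 5)
      (by linarith : 1 - θ < 1 / 5))
    exact ⟨b, (le_max_left _ _).trans_lt c1, (le_max_right _ _).trans_lt c1, c2⟩
  obtain ⟨p, p0, h⟩ := shape_fails b b0 b2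
  obtain ⟨f1, f2⟩ := h Ω X T μ h1 h2 h3 h4 h5 h6 h7
  refine ⟨θ - 1 + b, by linarith, by linarith, fun q hq => ?_⟩
  rw [show -θ + (θ - 1 + b) = -1 + b by ring]
  have no : ∀ f : ℝ → ℝ, (∃ᶠ t in atTop, p ≤ f t) →
      ¬ Asymptotics.IsBigO atTop f (fun t : ℝ => t ^ (-q)) := fun f hf hO => by
    obtain ⟨t, a1, a2⟩ := (hf.and_eventually ((hO.trans_tendsto
      (tendsto_rpow_neg_atTop hq)).eventually (gt_mem_nhds p0))).exists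
    linarith
  exact ⟨no _ f1, no _ f2⟩

end Pool.Agent.Lib.MP_de94ef_pr.Q.AS
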