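import Pool.Agent.Results.MP_de94ef_pr.EveryScale
import Pool.Agent.Lib.MP_de94ef_pr.AS.Impl

/-!
Consequences of the bound at every scale: the form along a sequence, and the variance.
-/

open MeasureTheory ProbabilityTheory Filter

namespace Pool.Agent.Lib.MP_de94ef_pr.Q.AS

/-- The form along a sequence of points, with `p` depending on `a`. -/
theorem io : ∀ a : ℝ, a < 1 / 5 → ∃ p : ℝ, 0 < p ∧
    ∀ (Ω : Type) [MeasureSpace Ω] [IsProbabilityMeasure (volume : Measure Ω)]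
    (X : Sym2 (ℤ × ℤ) → Ω → ℝ) (T : Ω → ℤ × ℤ → ℝ) (μ : ℝ × ℝ → ℝ),
    (∀ e, Measurable (X e)) →
    iIndepFun X (volume : Measure Ω) →
    (∀ e, Measure.map (X e) (volume : Measure Ω) = expMeasure 1) →
    (∀ ω v, T ω v = sInf {s : ℝ | ∃ n : ℕ, ∃ p : ℕ → ℤ × ℤ, p 0 = 0 ∧ p n = v ∧
        (∀ i < n, |(p (i + 1)).1 - (p i).1| + |(p (i + 1)).2 - (p i).2| = 1) ∧
        s = ∑ i ∈ Finset.range n, X s(p i, p (i + 1)) ω}) →
    (∀ (x : ℝ × ℝ) (c : ℝ), 0 ≤ c → μ (c • x) = c * μ x) →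
    Continuous μ →
    (∀ z : ℤ × ℤ, ∀ᵐ ω ∂(volume : Measure Ω),
        Tendsto (fun n : ℕ => T ω ((n : ℤ) • z) / (n : ℝ)) atTop
          (nhds (μ ((z.1 : ℝ), (z.2 : ℝ))))) →
    ∀ C : ℝ, ∃ v : ℤ × ℤ, v ≠ 0 ∧
      p ≤ ((volume : Measure Ω) {ω | T ω v ≤
        μ ((v.1 : ℝ), (v.2 : ℝ)) - C * (|(v.1 : ℝ)| + |(v.2 : ℝ)|) ^ a}).toReal ∧
      p ≤ ((volume : Measure Ω) {ω |
        μ ((v.1 : ℝ), (v.2 : ℝ)) + C * (|(v.1 : ℝ)| + |(v.2 : ℝ)|) ^ a ≤ T ω v}).toReal :=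
  io_of_every Pool.Agent.Results.MP_de94ef_pr.EveryScale.result

lemma anti_of_two {Ω : Type} [MeasureSpace Ω] [IsProbabilityMeasure (volume : Measure Ω)]
    {Y : Ω → ℝ} {p m s : ℝ}
    (h1 : p ≤ ((volume : Measure Ω) {ω | Y ω ≤ m - s}).toReal)
    (h2 : p ≤ ((volume : Measure Ω) {ω | m + s ≤ Y ω}).toReal) (c : ℝ) :
    p ≤ ((volume : Measure Ω) {ω | s ≤ |Y ω - c|}).toReal := by
  rcases le_total m c with h | h
  · refine h1.trans (ENNReal.toReal_mono (measure_ne_top _ _) (measure_mono fun ω hω => ?_))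
    have : Y ω ≤ m - s := hω
    exact le_trans (by linarith : s ≤ -(Y ω - c)) (neg_le_abs _)
  · refine h2.trans (ENNReal.toReal_mono (measure_ne_top _ _) (measure_mono fun ω hω => ?_))
    have : m + s ≤ Y ω := hω
    exact le_trans (by linarith : s ≤ Y ω - c) (le_abs_self _)

/-- The largest variance in the ball of radius `n` is at least `p * n ^ (2 a)`. -/
theorem variance_every (a : ℝ) (ha : a < 1 / 5) : ∃ p : ℝ, 0 < p ∧ ∃ n₀ : ℕ,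
    ∀ (Ω : Type) [MeasureSpace Ω] [IsProbabilityMeasure (volume : Measure Ω)]
    (X : Sym2 (ℤ × ℤ) → Ω → ℝ) (T : Ω → ℤ × ℤ → ℝ) (μ : ℝ × ℝ → ℝ),
    (∀ e, Measurable (X e)) →
    iIndepFun X (volume : Measure Ω) →
    (∀ e, Measure.map (X e) (volume : Measure Ω) = expMeasure 1) →
    (∀ ω v, T ω v = sInf {s : ℝ | ∃ n : ℕ, ∃ p : ℕ → ℤ × ℤ, p 0 = 0 ∧ p n = v ∧
        (∀ i < n, |(p (i + 1)).1 - (p i).1| + |(p (i + 1)).2 - (p i).2| = 1) ∧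
        s = ∑ i ∈ Finset.range n, X s(p i, p (i + 1)) ω}) →
    (∀ (x : ℝ × ℝ) (c : ℝ), 0 ≤ c → μ (c • x) = c * μ x) →
    Continuous μ →
    (∀ z : ℤ × ℤ, ∀ᵐ ω ∂(volume : Measure Ω),
        Tendsto (fun n : ℕ => T ω ((n : ℤ) • z) / (n : ℝ)) atTop
          (nhds (μ ((z.1 : ℝ), (z.2 : ℝ))))) →
    ∀ n : ℕ, n₀ ≤ n → ∃ v : ℤ × ℤ, |(v.1 : ℝ)| + |(v.2 : ℝ)| ≤ n ∧
      p * (n : ℝ) ^ (2 * a) ≤ variance (fun ω => T ω v) (volume : Measure Ω) := by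
  obtain ⟨p, p0, n0, h⟩ := Pool.Agent.Results.MP_de94ef_pr.EveryScale.result a ha
  refine ⟨p, p0, max n0 1, fun Ω _ _ X T μ h1 h2 h3 h4 h5 h6 h7 n hn => ?_⟩
  obtain ⟨v, hv, b1, b2⟩ := h Ω X T μ h1 h2 h3 h4 h5 h6 h7 n ((le_max_left _ _).trans hn)
  refine ⟨v, hv, ?_⟩
  obtain ⟨Φ, hΦ, hT, -⟩ := transfer h1 h2 h3 h4 h5 h6 h7
  have hL : MemLp (fun ω => T ω v) 2 (volume : Measure Ω) :=
    ((V.memLp_TT 0 v).comp_measurePreserving hΦ).ae_eq (hT.mono fun ω hω => (hω v).symm)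
  have n1 : (0 : ℝ) < n := by exact_mod_cast (le_max_right n0 1).trans hn
  have s0 : 0 < (n : ℝ) ^ a := by positivity
  have c1 := anti_of_two b1 b2 (∫ ω, T ω v ∂(volume : Measure Ω))
  have c2 := ENNReal.toReal_le_of_le_ofReal (div_nonneg (variance_nonneg _ _) (sq_nonneg _))
    (meas_ge_le_variance_div_sq hL s0)
  have c3 := c1.trans c2
  rw [le_div_iff₀ (by positivity), ← Real.rpow_natCast (_ ^ a), ← Real.rpow_mul n1.le] at c3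
  rw [mul_comm 2 a]
  exact_mod_cast c3

end Pool.Agent.Lib.MP_de94ef_pr.Q.AS
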