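import Pool.Agent.Lib.MP_de94ef_pr.Tensor

/-!
Scaling finitely many exponential weights: a chi-square bound.
-/

open MeasureTheory ProbabilityTheory Set Real Function Filter Topology
open scoped ENNReal NNReal

namespace Pool.Agent.Lib.MP_de94ef_pr.Q.AS

lemma cs_sq {α : Type} [MeasurableSpace α] (m : Measure α) {f g : α → ℝ≥0∞} (hf : Measurable f)
    (hg : Measurable g) :
    (∫⁻ x, f x * g x ∂m) ^ 2 ≤ (∫⁻ x, f x ^ 2 ∂m) * ∫⁻ x, g x ^ 2 ∂m := by
  have h := ENNReal.lintegral_mul_le_Lp_mul_Lq m Real.HolderConjugate.two_two hf.aemeasurable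
    hg.aemeasurable
  have e : ∀ x : ℝ≥0∞, (x ^ (1 / 2 : ℝ)) ^ 2 = x := fun x => by
    rw [← ENNReal.rpow_natCast, ← ENNReal.rpow_mul]; norm_num
  have h2 := pow_le_pow_left' h 2
  rw [mul_pow, e, e] at h2
  simpa using h2

lemma lint_exp {b : ℝ} (hb : 0 < b) :
    ∫⁻ x in Ioi (0 : ℝ), ENNReal.ofReal (exp (-(b * x))) = ENNReal.ofReal b⁻¹ := by
  have i1 : IntegrableOn (fun x => exp (-b * x)) (Ioi (0 : ℝ)) := exp_neg_integrableOn_Ioi 0 hb
  have i2 := integral_exp_mul_Ioi (a := -b) (by linarith) 0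
  simp only [← neg_mul]
  rw [← ofReal_integral_eq_lintegral_ofReal i1 (ae_of_all _ fun x => (exp_pos _).le), i2]
  congr 1
  simp

lemma one_edge {η : ℝ} (h0 : 0 ≤ η) (h1 : η < 1) {f : ℝ → ℝ≥0∞} (hf : Measurable f) :
    (∫⁻ y, f ((1 + η) * y) ∂nu) ^ 2 ≤ ENNReal.ofReal (1 - η ^ 2)⁻¹ * ∫⁻ y, f y ^ 2 ∂nu := by
  have ha : 0 < 1 + η := by linarith
  set ρ : ℝ → ℝ≥0∞ := fun x => ENNReal.ofReal ((1 + η)⁻¹ * exp (η / (1 + η) * x)) with hρ
  have mρ : Measurable ρ := by fun_prop
  have e1 : ∫⁻ y, f ((1 + η) * y) ∂nu = ∫⁻ y, ρ y * f y ∂nu := by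
    rw [lintegral_nu (by fun_prop), lintegral_nu (by fun_prop),
      ← lintegral_indicator measurableSet_Ioi, ← lintegral_indicator measurableSet_Ioi]
    set G : ℝ → ℝ≥0∞ := (Ioi (0 : ℝ)).indicator
      fun x => ENNReal.ofReal (exp (-((1 + η)⁻¹ * x))) * f x with hG
    have mG : Measurable G := Measurable.indicator (by fun_prop) measurableSet_Ioi
    have a1 : ∫⁻ y, G ((1 + η) * y) = ENNReal.ofReal (1 + η)⁻¹ * ∫⁻ y, G y := by
      rw [← lintegral_map mG (by fun_prop), Real.map_volume_mul_left ha.ne', lintegral_smul_measure,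
        abs_of_pos (inv_pos.2 ha), smul_eq_mul]
    rw [← lintegral_const_mul _ mG] at a1
    refine (lintegral_congr fun y => ?_).trans (a1.trans (lintegral_congr fun y => ?_))
    · by_cases hy : y ∈ Ioi (0 : ℝ)
      · have : (1 + η) * y ∈ Ioi (0 : ℝ) := mul_pos ha hy
        rw [hG, indicator_of_mem hy, indicator_of_mem this, inv_mul_cancel_left₀ ha.ne']
      · have : (1 + η) * y ∉ Ioi (0 : ℝ) := fun h => hy ((mul_pos_iff_of_pos_left ha).1 h)
        rw [hG, indicator_of_notMem hy, indicator_of_notMem this]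
    · by_cases hy : y ∈ Ioi (0 : ℝ)
      · rw [hG, indicator_of_mem hy, indicator_of_mem hy, ← mul_assoc, ← mul_assoc, hρ,
          ← ENNReal.ofReal_mul (by positivity), ← ENNReal.ofReal_mul (by positivity)]
        congr 2
        rw [mul_left_comm, ← exp_add]
        congr 2
        field_simp
        ring
      · rw [hG, indicator_of_notMem hy, indicator_of_notMem hy, mul_zero]
  have e2 : ∫⁻ y, ρ y ^ 2 ∂nu = ENNReal.ofReal (1 - η ^ 2)⁻¹ := by
    have hb : 0 < (1 - η) / (1 + η) := div_pos (by linarith) ha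
    rw [lintegral_nu (by fun_prop)]
    have : ∀ y, ENNReal.ofReal (exp (-y)) * ρ y ^ 2 = ENNReal.ofReal ((1 + η)⁻¹ ^ 2) *
        ENNReal.ofReal (exp (-((1 - η) / (1 + η) * y))) := fun y => by
      rw [hρ, ← ENNReal.ofReal_pow (by positivity), ← ENNReal.ofReal_mul (by positivity),
        ← ENNReal.ofReal_mul (by positivity), mul_pow, mul_left_comm, ← exp_nat_mul, ← exp_add]
      congr 3
      push_cast
      field_simp
      ring
    simp only [this]
    rw [lintegral_const_mul _ (by fun_prop), lint_exp hb, ← ENNReal.ofReal_mul (by positivity)]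
    congr 1
    have : 1 - η ≠ 0 := by linarith
    rw [show 1 - η ^ 2 = (1 - η) * (1 + η) by ring]
    field_simp
  rw [e1, ← e2]
  exact cs_sq nu mρ hf

variable {ι : Type} [DecidableEq ι]

/-- Multiply the weights in `S` by `a`. -/
noncomputable def scl (a : ℝ) (S : Finset ι) (ω : ι → ℝ) : ι → ℝ :=
  fun e => if e ∈ S then a * ω e else ω e

@[fun_prop] lemma measurable_scl (a : ℝ) (S : Finset ι) : Measurable (scl a S) := by
  refine measurable_pi_lambda _ fun e => ?_
  unfold scl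
  split_ifs <;> fun_prop

lemma many_edges {η : ℝ} (h0 : 0 ≤ η) (h1 : η < 1) (S : Finset ι) :
    ∀ F : (ι → ℝ) → ℝ≥0∞, Measurable F → (∫⁻ ω, F (scl (1 + η) S ω) ∂PP ι) ^ 2 ≤
      ENNReal.ofReal (1 - η ^ 2)⁻¹ ^ S.card * ∫⁻ ω, F ω ^ 2 ∂PP ι := by
  induction S using Finset.induction_on with
  | empty =>
    intro F hF
    have := cs_sq (PP ι) hF (g := fun _ => 1) measurable_const
    have e : scl (1 + η) (∅ : Finset ι) = id := by funext ω e; simp [scl]
    simpa [e] using this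
  | insert e S he ih =>
    intro F hF
    set G : (ι → ℝ) → ℝ≥0∞ := fun ω => ∫⁻ y, F (update ω e ((1 + η) * y)) ∂nu with hG
    have mG : Measurable G :=
      Measurable.lintegral_prod_right (f := fun ω y => F (update ω e ((1 + η) * y)))
        (by unfold uncurry; fun_prop)
    have e1 : ∫⁻ ω, F (scl (1 + η) (insert e S) ω) ∂PP ι = ∫⁻ ω, G (scl (1 + η) S ω) ∂PP ι := by
      rw [lintegral_update e (by fun_prop)]
      refine lintegral_congr fun ω => lintegral_congr fun y => ?_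
      congr 1
      funext j
      by_cases hj : j = e
      · subst hj; simp [scl]
      · simp [scl, hj]
    rw [e1, Finset.card_insert_of_notMem he, pow_succ _ S.card, mul_assoc]
    refine (ih G mG).trans (mul_le_mul_right ?_ _)
    rw [lintegral_update e (F := fun ω => F ω ^ 2) (by fun_prop), ← lintegral_const_mul]
    · exact lintegral_mono fun ω => one_edge h0 h1 (f := fun y => F (update ω e y)) (by fun_prop)
    · exact Measurable.lintegral_prod_right (f := fun ω y => F (update ω e y) ^ 2)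
        (by unfold uncurry; fun_prop)

/-- A rare event stays rare after scaling `M` weights by `1 + η` with `η ^ 2 M ≤ 1`. -/
lemma both_good {η : ℝ} (h0 : 0 ≤ η) (h1 : η ≤ 1 / 2) (S : Finset ι) (hS : η ^ 2 * S.card ≤ 1)
    {A : Set (ι → ℝ)} (hA : MeasurableSet A) (hP : PP ι A ≤ ENNReal.ofReal (1 / 100)) :
    ∃ ω, ω ∉ A ∧ scl (1 + η) S ω ∉ A := by
  by_contra hc
  have hc' : (univ : Set (ι → ℝ)) ⊆ A ∪ scl (1 + η) S ⁻¹' A := fun ω _ => by
    by_contra h
    rw [mem_union, not_or] at h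
    exact hc ⟨ω, h.1, h.2⟩
  have h2 := many_edges h0 (by linarith) S (A.indicator 1) (measurable_one.indicator hA)
  have e1 : ∫⁻ ω, A.indicator (1 : (ι → ℝ) → ℝ≥0∞) (scl (1 + η) S ω) ∂PP ι =
      PP ι (scl (1 + η) S ⁻¹' A) := by
    rw [← lintegral_indicator_one (measurable_scl _ _ hA)]; rfl
  have e2 : ∫⁻ ω, A.indicator (1 : (ι → ℝ) → ℝ≥0∞) ω ^ 2 ∂PP ι = PP ι A := by
    rw [← lintegral_indicator_one hA]
    refine lintegral_congr fun ω => ?_
    by_cases h : ω ∈ A <;> simp [h]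
  rw [e1, e2] at h2
  have a0 : η ^ 2 ≤ 1 / 4 := by nlinarith
  have a1 : (1 - η ^ 2)⁻¹ ≤ exp (2 * η ^ 2) := by
    refine le_trans ?_ (add_one_le_exp _)
    rw [inv_le_iff_one_le_mul₀ (by linarith)]
    nlinarith [sq_nonneg η]
  have a2 : ((1 - η ^ 2)⁻¹) ^ S.card ≤ 9 := by
    refine (pow_le_pow_left₀ (inv_nonneg.2 (by linarith)) a1 _).trans ?_
    rw [← exp_nat_mul]
    refine (exp_le_exp.2 (show _ ≤ 1 + 1 by nlinarith)).trans ?_
    rw [exp_add]
    nlinarith [exp_one_lt_d9, exp_pos 1]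
  have a3 : PP ι (scl (1 + η) S ⁻¹' A) ^ 2 ≤ ENNReal.ofReal (1 / 2) ^ 2 := by
    refine h2.trans ?_
    rw [← ENNReal.ofReal_pow (inv_nonneg.2 (by linarith)), ← ENNReal.ofReal_pow (by norm_num)]
    refine (mul_le_mul' (ENNReal.ofReal_le_ofReal a2) hP).trans ?_
    rw [← ENNReal.ofReal_mul (by norm_num)]
    exact ENNReal.ofReal_le_ofReal (by norm_num)
  have a4 := (ENNReal.pow_le_pow_left_iff (by norm_num)).1 a3
  have a5 := (measure_mono hc').trans ((measure_union_le _ _).trans (add_le_add hP a4))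
  rw [measure_univ, ← ENNReal.ofReal_add (by norm_num) (by norm_num), ENNReal.one_le_ofReal] at a5
  norm_num at a5

end Pool.Agent.Lib.MP_de94ef_pr.Q.AS
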