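import Pool.Agent.Lib.MP_de94ef_pr.Upper
import Pool.Agent.Lib.MP_de94ef_pr.AS.Scale

/-!
Near-geodesics in the direction minimising the time constant stay in a thin tube.
-/

open MeasureTheory ProbabilityTheory Set Real Function Filter Topology
open scoped ENNReal NNReal

namespace Pool.Agent.Lib.MP_de94ef_pr.Q.AS

lemma split_path (ω : EE → ℝ) {a b w : VV} (p : GG.Walk a b) (hp : p.IsPath)
    (hw : w ∈ p.support) : TT ω a w + TT ω w b ≤ wt ω (es p) := by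
  have h1 := p.take_spec hw
  have h2 : Disjoint (es (p.takeUntil w hw)) (es (p.dropUntil w hw)) := by
    have h3 := hp.isTrail.edges_nodup
    rw [← h1, SimpleGraph.Walk.edges_append] at h3
    exact List.disjoint_toFinset_iff_disjoint.2 (List.disjoint_of_nodup_append h3)
  have h4 : wt ω (es p) = wt ω (es (p.takeUntil w hw)) + wt ω (es (p.dropUntil w hw)) := by
    rw [← wt_union ω h2, ← es_append, h1]
  rw [h4]
  exact add_le_add (TT_le ω _) (TT_le ω _)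

/-- Pairs made of a point of `U` and a point at sup-distance at most one. -/
noncomputable def nb (U : Finset VV) : Finset EE :=
  U.biUnion fun w => (box w 1).image fun y => s(w, y)

lemma card_nb (U : Finset VV) : (nb U).card ≤ 9 * U.card := by
  refine Finset.card_biUnion_le.trans ((Finset.sum_le_card_nsmul _ _ 9 fun w _ => ?_).trans ?_)
  · exact Finset.card_image_le.trans (by rw [card_box]; norm_num)
  · simp [mul_comm]

lemma walk_in (U : Finset VV) {x b : VV} (q : GG.Walk x b) : x ∈ U →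
    (∀ w ∈ q.support, ∀ y ∈ U, GG.Adj y w → w ∈ U) → es q ⊆ nb U := by
  induction q with
  | nil => intro _ _; simp [es]
  | @cons x y b h q ih =>
    intro hx hq e he
    rw [mem_es, SimpleGraph.Walk.edges_cons, List.mem_cons] at he
    rcases he with rfl | he
    · exact Finset.mem_biUnion.2 ⟨x, hx, Finset.mem_image.2
        ⟨y, mem_box_of_n1 (by rw [n1_of_adj h]; simp), rfl⟩⟩
    · exact ih (hq y (by simp) x hx h) (fun w hw => hq w (by simp [hw])) (mem_es.2 he)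

lemma wt_scl {a : ℝ} (ha : 0 ≤ a) {S S' : Finset EE} (h : S' ⊆ S) (ω : EE → ℝ) :
    wt (scl a S ω) S' = a * wt ω S' := by
  unfold wt
  rw [Finset.mul_sum]
  refine Finset.sum_congr rfl fun e he => ?_
  simp only [scl, if_pos (h he)]
  rw [mul_max_of_nonneg _ _ ha, mul_zero]

variable {μ : ℝ × ℝ → ℝ}

lemma exists_dir (h : IsTC μ) : ∃ u : ℝ × ℝ, u.1 ^ 2 + u.2 ^ 2 = 1 ∧ 1 / 11 ≤ μ u ∧
    ∀ x : ℝ × ℝ, μ u * √(x.1 ^ 2 + x.2 ^ 2) ≤ μ x := by
  have hK : IsCompact {x : ℝ × ℝ | x.1 ^ 2 + x.2 ^ 2 = 1} := by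
    refine (isCompact_Icc (a := ((-1 : ℝ), (-1 : ℝ))) (b := (1, 1))).of_isClosed_subset
      (isClosed_eq (by fun_prop) continuous_const) fun x hx => ?_
    have hx' : x.1 ^ 2 + x.2 ^ 2 = 1 := hx
    refine ⟨⟨?_, ?_⟩, ?_, ?_⟩ <;> simp only <;> nlinarith [sq_nonneg x.1, sq_nonneg x.2]
  obtain ⟨u, hu, hm⟩ := hK.exists_isMinOn ⟨(1, 0), by simp⟩ h.continuous.continuousOn
  have hu' : u.1 ^ 2 + u.2 ^ 2 = 1 := hu
  refine ⟨u, hu', ?_, fun x => ?_⟩
  · have a1 := h.ge u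
    unfold r1 at a1
    have a2 := sq_abs u.1
    have a3 := sq_abs u.2
    have a4 : 1 ≤ |u.1| + |u.2| := by
      by_contra hc
      nlinarith [abs_nonneg u.1, abs_nonneg u.2]
    linarith
  · rcases (sqrt_nonneg (x.1 ^ 2 + x.2 ^ 2)).eq_or_lt with h0 | h0
    · rw [← h0, mul_zero]; exact h.nonneg x
    · have a1 : √(x.1 ^ 2 + x.2 ^ 2) ^ 2 = x.1 ^ 2 + x.2 ^ 2 := sq_sqrt (by positivity)
      generalize √(x.1 ^ 2 + x.2 ^ 2) = c at *
      have a2 : μ u ≤ μ (c⁻¹ • x) := hm (by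
        simp only [mem_ofPred_eq, Prod.smul_fst, Prod.smul_snd, smul_eq_mul, mul_pow]
        rw [← mul_add, ← a1]; field_simp)
      rw [h.smul _ _ (inv_pos.2 h0).le, inv_mul_eq_div, le_div_iff₀ h0] at a2
      exact a2

/-- Coordinate along `u`. -/
def ca (u x : ℝ × ℝ) : ℝ := x.1 * u.1 + x.2 * u.2

/-- Coordinate across `u`. -/
def cb (u x : ℝ × ℝ) : ℝ := x.2 * u.1 - x.1 * u.2

lemma ca_cb {u : ℝ × ℝ} (hu : u.1 ^ 2 + u.2 ^ 2 = 1) (x : ℝ × ℝ) :
    x.1 ^ 2 + x.2 ^ 2 = ca u x ^ 2 + cb u x ^ 2 := by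
  unfold ca cb
  linear_combination (-(x.1 ^ 2 + x.2 ^ 2)) * hu

lemma geo {u x : ℝ × ℝ} (hu : u.1 ^ 2 + u.2 ^ 2 = 1) (h0 : 0 < μ u)
    (hm : ∀ x : ℝ × ℝ, μ u * √(x.1 ^ 2 + x.2 ^ 2) ≤ μ x) {N t : ℝ} (ht : 0 ≤ t) (htN : t ≤ N)
    (hx : μ x + μ (N • u - x) ≤ μ u * (N + t)) : |ca u x| ≤ 2 * N ∧ cb u x ^ 2 ≤ N * t := by
  have a1 := hm x
  have a2 := hm (N • u - x)
  have e1 : ca u (N • u - x) = N - ca u x := by
    simp only [ca, Prod.fst_sub, Prod.snd_sub, Prod.smul_fst, Prod.smul_snd, smul_eq_mul]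
    linear_combination N * hu
  have e2 : cb u (N • u - x) = -cb u x := by
    simp only [cb, Prod.fst_sub, Prod.snd_sub, Prod.smul_fst, Prod.smul_snd, smul_eq_mul]
    ring
  rw [ca_cb hu] at a1 a2
  rw [e1, e2, neg_sq] at a2
  generalize ca u x = a at *
  generalize cb u x = b at *
  have b1 : √(a ^ 2 + b ^ 2) ^ 2 = a ^ 2 + b ^ 2 := sq_sqrt (by positivity)
  have b2 : √((N - a) ^ 2 + b ^ 2) ^ 2 = (N - a) ^ 2 + b ^ 2 := sq_sqrt (by positivity)
  have b3 := sqrt_nonneg (a ^ 2 + b ^ 2)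
  have b4 := sqrt_nonneg ((N - a) ^ 2 + b ^ 2)
  generalize √(a ^ 2 + b ^ 2) = A at *
  generalize √((N - a) ^ 2 + b ^ 2) = B at *
  have b5 : A + B ≤ N + t := le_of_mul_le_mul_left (by linarith) h0
  have b6 : a * (N - a) + b ^ 2 ≤ A * B := by
    refine abs_le_of_sq_le_sq' ?_ (by positivity) |>.2
    rw [mul_pow, b1, b2]
    nlinarith [sq_nonneg (a * b - b * (N - a))]
  refine ⟨abs_le_of_sq_le_sq ?_ (by linarith), ?_⟩
  · have : A ^ 2 ≤ (2 * N) ^ 2 := pow_le_pow_left₀ b3 (by linarith) 2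
    nlinarith [sq_nonneg b]
  · have : (A + B) ^ 2 ≤ (N + t) ^ 2 := pow_le_pow_left₀ (by linarith) b5 2
    nlinarith [mul_le_mul_of_nonneg_left htN ht, mul_nonneg ht (ht.trans htN)]

open Classical in
/-- Lattice points of a tilted rectangle. -/
noncomputable def tube (u : ℝ × ℝ) (N L : ℕ) : Finset VV :=
  (box 0 (6 * N)).filter fun w => |ca u (iv w)| ≤ 2 * N ∧ |2 * cb u (iv w)| ≤ L

lemma card_tube {u : ℝ × ℝ} (hu : u.1 ^ 2 + u.2 ^ 2 = 1) (N L : ℕ) :
    (tube u N L).card ≤ (8 * N + 1) * (2 * L + 1) := by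
  have h := Finset.card_le_card_of_injOn (s := tube u N L)
    (t := Finset.Icc (-(4 * N : ℤ)) (4 * N) ×ˢ Finset.Icc (-(L : ℤ)) L)
    (fun w => (⌊2 * ca u (iv w)⌋, ⌊2 * cb u (iv w)⌋)) (fun w hw => by
      obtain ⟨-, h1, h2⟩ := Finset.mem_filter.1 (Finset.mem_coe.1 hw)
      rw [abs_le] at h1 h2
      simp only [Finset.coe_product, Finset.coe_Icc, mem_prod, mem_Icc, Int.le_floor]
      refine ⟨⟨by push_cast; linarith, ?_⟩, by push_cast; linarith, ?_⟩
      · exact_mod_cast (Int.floor_le (2 * ca u (iv w))).trans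
          (show _ ≤ ((4 * N : ℤ) : ℝ) by push_cast; linarith)
      · exact_mod_cast (Int.floor_le (2 * cb u (iv w))).trans
          (show _ ≤ ((L : ℤ) : ℝ) by push_cast; linarith))
    (fun w _ w' _ hw => by
      simp only [Prod.mk.injEq] at hw
      have a1 := abs_lt.1 (Int.abs_sub_lt_one_of_floor_eq_floor hw.1)
      have a2 := abs_lt.1 (Int.abs_sub_lt_one_of_floor_eq_floor hw.2)
      have a3 := ca_cb hu (iv w - iv w')
      have e1 : ca u (iv w - iv w') = ca u (iv w) - ca u (iv w') := by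
        simp only [ca, Prod.fst_sub, Prod.snd_sub]; ring
      have e2 : cb u (iv w - iv w') = cb u (iv w) - cb u (iv w') := by
        simp only [cb, Prod.fst_sub, Prod.snd_sub]; ring
      rw [e1, e2] at a3
      have a4 : (iv w - iv w').1 ^ 2 + (iv w - iv w').2 ^ 2 < 1 := by rw [a3]; nlinarith
      simp only [iv, Prod.fst_sub, Prod.snd_sub] at a4
      have a5 : (w.1 - w'.1) ^ 2 + (w.2 - w'.2) ^ 2 < 1 := by exact_mod_cast a4
      refine Prod.ext ?_ ?_ <;> nlinarith [sq_nonneg (w.1 - w'.1), sq_nonneg (w.2 - w'.2)])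
  rw [Finset.card_product, Int.card_Icc, Int.card_Icc] at h
  refine h.trans (le_of_eq ?_)
  congr 1 <;> omega

lemma mem_tube {u : ℝ × ℝ} (hu : u.1 ^ 2 + u.2 ^ 2 = 1) {N L : ℕ} {t : ℝ} (htN : t ≤ N)
    (hL : 4 * (N * t) ≤ (L : ℝ) ^ 2) {w : VV} (h1 : |ca u (iv w)| ≤ 2 * N)
    (h2 : cb u (iv w) ^ 2 ≤ N * t) : w ∈ tube u N L := by
  have N0 : (0 : ℝ) ≤ N := by positivity
  refine Finset.mem_filter.2 ⟨mem_box_of_n1 ?_, h1,
    abs_le_of_sq_le_sq (by rw [mul_pow]; linarith) (by positivity)⟩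
  have a1 := ca_cb hu (iv w)
  have a2 : ca u (iv w) ^ 2 ≤ (2 * N) ^ 2 := by
    rw [← sq_abs]; exact pow_le_pow_left₀ (abs_nonneg _) h1 2
  have a3 := mul_le_mul_of_nonneg_left htN N0
  have a4 : |(w.1 : ℝ)| ≤ 3 * N := abs_le_of_sq_le_sq (by
    simp only [iv] at a1 a2 h2; nlinarith [sq_nonneg (w.2 : ℝ)]) (by positivity)
  have a5 : |(w.2 : ℝ)| ≤ 3 * N := abs_le_of_sq_le_sq (by
    simp only [iv] at a1 a2 h2; nlinarith [sq_nonneg (w.1 : ℝ)]) (by positivity)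
  rw [sub_zero]
  unfold n1
  push_cast
  linarith

/-- Some passage time from the origin, or to `v`, is far from the time constant. -/
def bad (μ : ℝ × ℝ → ℝ) (N : ℕ) (s : ℝ) (v : VV) : Set (EE → ℝ) :=
  ⋃ w ∈ box 0 (7 * N), ({ω | s ≤ |TT ω 0 w - μ (iv w)|} ∪
    {ω | s ≤ |TT ω w v - μ (iv (v - w))|})

lemma measurableSet_bad' (N : ℕ) (s : ℝ) (v : VV) : MeasurableSet (bad μ N s v) :=
  Finset.measurableSet_biUnion _ fun w _ =>
    (measurableSet_le measurable_const (by fun_prop)).union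
      (measurableSet_le measurable_const (by fun_prop))

lemma not_bad {N : ℕ} {s : ℝ} {v w : VV} {ω : EE → ℝ} (h : ω ∉ bad μ N s v)
    (hw : w ∈ box 0 (7 * N)) :
    |TT ω 0 w - μ (iv w)| < s ∧ |TT ω w v - μ (iv (v - w))| < s := by
  simp only [bad, mem_iUnion, mem_union, mem_ofPred_eq, not_exists, not_or, not_le] at h
  exact h w hw

theorem core (h : IsTC μ) (N : ℕ) {s : ℝ} (hs : 1 ≤ s) (hN : 10 ^ 15 * s ^ 5 ≤ N) :
    ∃ v : VV, n1 v ≤ 3 * N ∧ ENNReal.ofReal (1 / 100) < PP EE (bad μ N s v) := by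
  obtain ⟨u, hu, m0, hm⟩ := exists_dir h
  have s5 : s ≤ s ^ 5 := le_self_pow₀ hs (by norm_num)
  have N1 : 10 ^ 15 * s ≤ N := by linarith
  have N0 : (0 : ℝ) < N := by linarith
  set v := fl ((N : ℝ) • u) with hv
  have v1 : r1 (iv v - (N : ℝ) • u) ≤ 2 := r1_fl _
  have v2 : μ ((N : ℝ) • u) = N * μ u := h.smul _ _ N0.le
  have v3 := h.le_add (iv v) ((N : ℝ) • u)
  have v4 := h.le_add ((N : ℝ) • u) (iv v)
  rw [r1_sub_comm] at v4
  have v5 : n1 v ≤ 3 * N := by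
    have b1 : |u.1| ≤ 1 := abs_le_of_sq_le_sq (by nlinarith [sq_nonneg u.2]) zero_le_one
    have b2 : |u.2| ≤ 1 := abs_le_of_sq_le_sq (by nlinarith [sq_nonneg u.1]) zero_le_one
    have b3 := r1_add_le (iv v - (N : ℝ) • u) ((N : ℝ) • u)
    rw [sub_add_cancel, r1_iv] at b3
    have b4 : r1 ((N : ℝ) • u) ≤ 2 * N := by
      simp only [r1, Prod.smul_fst, Prod.smul_snd, smul_eq_mul, abs_mul, abs_of_pos N0]
      nlinarith
    linarith
  refine ⟨v, v5, lt_of_not_ge fun hP => ?_⟩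
  have q0 : 1 ≤ √(N * s) := one_le_sqrt.2 (by nlinarith)
  have q1 : √(N * s) ^ 2 = N * s := sq_sqrt (by positivity)
  have q2 : 10 ^ 7 * 2 * s ^ 2 * √(N * s) ≤ N := by
    refine (abs_le_of_sq_le_sq' ?_ N0.le).2
    rw [mul_pow, q1]
    nlinarith [mul_le_mul_of_nonneg_left hN N0.le, pow_pos (show 0 < s by linarith) 5]
  generalize √(N * s) = q at q0 q1 q2
  set L := ⌈18 * q⌉₊ with hL
  have L1 : 18 * q ≤ L := Nat.le_ceil _
  have L2 : (L : ℝ) ≤ 19 * q := by linarith [Nat.ceil_lt_add_one (a := 18 * q) (by linarith)]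
  have L3 : 4 * (N * (77 * s)) ≤ (L : ℝ) ^ 2 := by
    have := pow_le_pow_left₀ (by linarith) L1 2
    nlinarith
  have c1 : ((nb (tube u N L)).card : ℝ) ≤ 9 * ((9 * N) * (39 * q)) := by
    have a1 : ((nb (tube u N L)).card : ℝ) ≤ 9 * ((8 * N + 1) * (2 * L + 1)) := by
      exact_mod_cast (card_nb _).trans (Nat.mul_le_mul_left 9 (card_tube hu N L))
    refine a1.trans ?_
    gcongr <;> linarith
  have η0 : 0 ≤ 60 * s / N := by positivity
  have η1 : 60 * s / N ≤ 1 / 2 := by rw [div_le_iff₀ N0]; linarith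
  obtain ⟨ω, g1, g2⟩ := both_good η0 η1 (nb (tube u N L)) (by
    refine (mul_le_mul_of_nonneg_left c1 (sq_nonneg _)).trans ?_
    rw [div_pow, div_mul_eq_mul_div, div_le_one (by positivity)]
    nlinarith [mul_le_mul_of_nonneg_left q2 N0.le, mul_pos N0 (show 0 < s ^ 2 * q by positivity)])
    (measurableSet_bad' N s v) hP
  have vb : v ∈ box 0 (7 * N) := mem_box_of_n1 (by rw [sub_zero]; push_cast; linarith)
  have k1 := abs_lt.1 (not_bad g1 vb).1
  have k2 := abs_lt.1 (not_bad g2 vb).1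
  obtain ⟨p, hp, hw⟩ := exists_lt_TT (ω := scl (1 + 60 * s / N) (nb (tube u N L)) ω) (u := 0)
    (v := v) (c := μ (iv v) + s) (by linarith)
  have hin : es p ⊆ nb (tube u N L) := by
    refine walk_in _ p (mem_tube hu (t := 77 * s) (by linarith) L3 (by simp [ca])
      (by simp only [cb, iv_zero]; norm_num; positivity)) fun w hwp y hy hadj => ?_
    have wb : w ∈ box 0 (7 * N) := by
      have b1 := mem_box.1 (Finset.mem_filter.1 hy).1
      have b2 : |w.1 - y.1| + |w.2 - y.2| = 1 := hadj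
      have b3 : (1 : ℤ) ≤ N := by exact_mod_cast (show (1 : ℝ) ≤ N by linarith)
      have b4 := abs_le.1 (show |w.1 - y.1| ≤ 1 by linarith [abs_nonneg (w.2 - y.2)])
      have b5 := abs_le.1 (show |w.2 - y.2| ≤ 1 by linarith [abs_nonneg (w.1 - y.1)])
      rw [mem_box]
      simp only [Prod.fst_zero, Prod.snd_zero] at b1 ⊢
      push_cast at b1 ⊢
      refine ⟨⟨?_, ?_⟩, ?_, ?_⟩ <;> linarith [b1.1.1, b1.1.2, b1.2.1, b1.2.2]
    have d1 := abs_lt.1 (not_bad g2 wb).1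
    have d2 := abs_lt.1 (not_bad g2 wb).2
    have d3 := split_path (scl (1 + 60 * s / N) (nb (tube u N L)) ω) p hp hwp
    have d4 := h.le_add ((N : ℝ) • u - iv w) (iv (v - w))
    rw [iv_sub, sub_sub_sub_cancel_right, r1_sub_comm, ← iv_sub] at d4
    obtain ⟨d5, d6⟩ := geo (x := iv w) hu (by linarith) hm (N := N) (t := 77 * s) (by linarith)
      (by linarith) (by nlinarith)
    exact mem_tube hu (by linarith) L3 d5 d6
  rw [wt_scl (by linarith) hin] at hw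
  have f1 := TT_le ω p
  have f2 : (N : ℝ) / 12 ≤ μ (iv v) := by nlinarith
  have f3 : 60 * s / N * (N / 12) = 5 * s := by field_simp; ring
  have f4 := mul_le_mul_of_nonneg_left f2 η0
  have f5 := mul_le_mul_of_nonneg_left (show μ (iv v) - s ≤ wt ω (es p) by linarith)
    (show 0 ≤ 1 + 60 * s / N by linarith)
  have f6 := mul_le_mul_of_nonneg_right η1 (show 0 ≤ s by linarith)
  nlinarith

end Pool.Agent.Lib.MP_de94ef_pr.Q.AS
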