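import Pool.Agent.Lib.MP_de94ef_pr.AS.Ext
import Pool.Agent.Lib.MP_de94ef_pr.AS.Tube
import Pool.Agent.Lib.MP_de94ef_pr.RF.Conc

/-!
Deviations from the time constant on both sides, in every large ball.
-/

open MeasureTheory ProbabilityTheory Set Real Function Filter Topology
open scoped ENNReal NNReal

namespace Pool.Agent.Lib.MP_de94ef_pr.Q.AS

variable {Z : ℝ}

open V (memLp_TT dom_of_var)

lemma sq_le_up {w c N : ℝ} (hc : 0 ≤ c) (hN : 1 ≤ N) :
    w ^ 2 ≤ 2 * N * c + (if c ≤ w then 2 * N ^ 2 else 0) + 3 * w ^ 4 / N ^ 2 - N * w := by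
  have N0 : 0 < N := by linarith
  have a0 : 0 ≤ w ^ 4 / N ^ 2 := by positivity
  have a1 : ∀ x : ℝ, 0 ≤ x → x ^ 4 = w ^ 4 → N ≤ x → x ^ 2 ≤ w ^ 4 / N ^ 2 ∧
      N * x ≤ w ^ 4 / N ^ 2 := fun x hx e h => by
    have b1 : N ^ 2 ≤ x ^ 2 := by gcongr
    have b2 : x ^ 2 ≤ w ^ 4 / N ^ 2 := by
      rw [le_div_iff₀ (by positivity), ← e]
      nlinarith [mul_le_mul_of_nonneg_left b1 (sq_nonneg x)]
    exact ⟨b2, by nlinarith⟩
  rw [mul_div_assoc]
  rcases le_total 0 w with h0 | h0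
  · rcases le_total N w with h1 | h1
    · obtain ⟨b1, b2⟩ := a1 w h0 rfl h1
      split_ifs <;> nlinarith
    · split_ifs with h2
      · nlinarith
      · nlinarith [not_le.1 h2]
  · rcases le_total N (-w) with h1 | h1
    · obtain ⟨b1, b2⟩ := a1 (-w) (by linarith) (by ring) h1
      split_ifs <;> nlinarith
    · split_ifs <;> nlinarith

lemma var_up {M ε : ℝ} (hM : 0 ≤ M) (hε : 0 < ε) : ∃ p c : ℝ, 0 < p ∧ 0 < c ∧
    ∀ W : Env → ℝ, Measurable W → Integrable W PE → Integrable (fun ω => W ω ^ 4) PE →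
      ∫ ω, W ω ^ 4 ∂PE ≤ M → 0 ≤ ∫ ω, W ω ∂PE → PE.real {ω | c ≤ W ω} < p → Var[W; PE] ≤ ε := by
  obtain ⟨N, hN⟩ : ∃ N, N = 9 * M / ε + 1 := ⟨_, rfl⟩
  have N1 : 1 ≤ N := by rw [hN]; linarith [show 0 ≤ 9 * M / ε by positivity]
  have N0 : 0 < N := by linarith
  have N2 : 9 * M ≤ ε * N ^ 2 := by
    have : ε * N = 9 * M + ε := by rw [hN]; field_simp
    nlinarith
  refine ⟨ε / (6 * N ^ 2), ε / (6 * N), by positivity, by positivity,
    fun W mW i1 i4 b4 h0 hp => ?_⟩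
  have mE : MeasurableSet {ω | ε / (6 * N) ≤ W ω} := measurableSet_le measurable_const mW
  have j1 : Integrable (fun ω => 2 * N * (ε / (6 * N)) +
      {ω | ε / (6 * N) ≤ W ω}.indicator (fun _ => 2 * N ^ 2) ω) PE :=
    (integrable_const _).add ((integrable_const _).indicator mE)
  have j2 : Integrable (fun ω => 3 * W ω ^ 4 / N ^ 2) PE := (i4.const_mul _).div_const _
  have j3 : Integrable (fun ω => N * W ω) PE := i1.const_mul _
  refine (variance_le_expectation_sq mW.aestronglyMeasurable).trans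
    ((integral_mono_of_nonneg (ae_of_all _ fun ω => sq_nonneg _) ((j1.add j2).sub j3)
      (ae_of_all _ fun ω => ?_)).trans ?_)
  · have := sq_le_up (w := W ω) (c := ε / (6 * N)) (by positivity) N1
    simpa only [Pi.sub_apply, Pi.add_apply, Pi.pow_apply, indicator, mem_ofPred_eq] using this
  · simp only [Pi.sub_apply, Pi.add_apply]
    have j4 : Integrable (fun ω => 2 * N * (ε / (6 * N)) +
        {ω | ε / (6 * N) ≤ W ω}.indicator (fun _ => 2 * N ^ 2) ω + 3 * W ω ^ 4 / N ^ 2) PE :=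
      j1.add j2
    rw [integral_sub j4 j3, integral_add j1 j2,
      integral_add (integrable_const _) ((integrable_const _).indicator mE),
      integral_indicator_const _ mE, integral_div, integral_const_mul 3, integral_const_mul N]
    simp only [integral_const, probReal_univ, smul_eq_mul, one_mul]
    have c1 : 3 * (∫ ω, W ω ^ 4 ∂PE) / N ^ 2 ≤ ε / 3 := by
      rw [div_le_iff₀ (by positivity)]; linarith
    have c2 : 2 * N * (ε / (6 * N)) = ε / 3 := by field_simp; ring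
    rw [lt_div_iff₀ (by positivity)] at hp
    nlinarith [mul_nonneg N0.le h0]

lemma var_of_up {B ε : ℝ} (hB : 0 ≤ B) (hε : 0 < ε) : ∃ p c : ℝ, 0 < p ∧ 0 < c ∧
    ∀ (x y : VV) (m S : ℝ), 0 < S → m ≤ hh (y - x) →
      Dom (fun ω z => z = TT ω x y - m) (B * S) (S / 3) →
      Dom (fun ω z => z = m - TT ω x y) (B * S) (S / 3) →
      PE.real {ω | m + c * S ≤ TT ω x y} < p → Var[fun ω => TT ω x y; PE] ≤ ε * S ^ 2 := by
  obtain ⟨p, c, p0, c0, h⟩ := var_up (M := 16 * B ^ 4 + 16) (by positivity) hε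
  refine ⟨p, c, p0, c0, fun x y m S s0 hm hU hD hup => ?_⟩
  obtain ⟨i1, b1⟩ := dom_pow_four (X := fun ω => TT ω x y - m) (by fun_prop) hU (by positivity)
    (by positivity)
  obtain ⟨i2, b2⟩ := dom_pow_four (X := fun ω => m - TT ω x y) (by fun_prop) hD (by positivity)
    (by positivity)
  have e : ∀ t : ℝ, ((t - m) / S) ^ 4 = (max (t - m) 0 ^ 4 + max (m - t) 0 ^ 4) / S ^ 4 :=
    fun t => by
      rw [div_pow]
      rcases le_total t m with h | h
      · rw [max_eq_right (by linarith), max_eq_left (by linarith)]; ring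
      · rw [max_eq_left (by linarith), max_eq_right (by linarith)]; ring
  have le2 : ∀ t a : ℝ, a ≤ (t - m) / S ↔ m + a * S ≤ t := fun t a => by
    rw [le_div_iff₀ s0, le_sub_iff_add_le']
  have key := h (fun ω => (TT ω x y - m) / S) (by fun_prop)
    (((integrable_TT x y).sub (integrable_const m)).div_const S)
    (by simp only [e]; exact (i1.add i2).div_const _)
    (by
      simp only [e]
      rw [integral_div, integral_add i1 i2, div_le_iff₀ (by positivity)]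
      have : 0 ≤ S ^ 4 := by positivity
      linarith)
    (by
      rw [integral_div, integral_sub (integrable_TT x y) (integrable_const m), integral_TT]
      simp only [integral_const, probReal_univ, smul_eq_mul, one_mul]
      exact div_nonneg (by linarith) s0.le)
    (by simpa only [le2] using hup)
  simp only [div_eq_mul_inv] at key
  rw [variance_mul_const, variance_sub_const (measurable_TT x y).aestronglyMeasurable,
    inv_pow, ← div_eq_mul_inv, div_le_iff₀ (by positivity)] at key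
  exact key

theorem oneStep (z8 : 8 ≤ Z) : ∃ p c K : ℝ, 0 < p ∧ 0 < c ∧
    ∀ (μ : ℝ × ℝ → ℝ) (σ : ℝ → ℝ) (R R' : ℝ), IsTC μ →
    Sc Z σ → (∀ r, 1 ≤ r → K ≤ σ r) → R' ≤ 2 * R →
    (∀ v, 1 ≤ n1 v → n1 v ≤ R' → PE.real {ω | TT ω 0 v ≤ μ (iv v) - σ (n1 v)} < p ∨
      PE.real {ω | μ (iv v) + c * σ (n1 v) ≤ TT ω 0 v} < p) →
    1 ≤ R → Conc σ R → Conc σ R' := by
  obtain ⟨B, K0, hB, h0⟩ := ext z8 (X := 3) (by norm_num)
  obtain ⟨B0, hB0, h1⟩ := meanB z8
  obtain ⟨ε, hε, h2⟩ := dom_of_var (B + B0)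
  obtain ⟨p, K1, p0, h3⟩ := RF.var_of_low hB hε
  obtain ⟨p', c, p0', c0, h4⟩ := var_of_up hB hε
  refine ⟨min p p', c, max K0 K1, lt_min p0 p0', c0,
    fun μ σ R R' tc sc big hR' hV hR conc x y r r1 r2 r4 => ?_⟩
  have r3 : r ≤ 2 * R := r4.trans hR'
  have pos : ∀ r, 1 ≤ r → 0 < σ r := fun r hr => lt_of_lt_of_le (by norm_num) (sc.big r hr)
  rcases le_total (n1 (y - x)) R with hc | hc
  · have a1 : 1 ≤ min r R := le_min r2 hR
    obtain ⟨a2, a3⟩ := conc x y (min r R) (le_min r1 hc) a1 (min_le_right _ _)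
    have a4 := sc.mono _ _ (by linarith) (min_le_left r R)
    exact ⟨a2.scale (pos _ a1) a4, a3.scale (pos _ a1) a4⟩
  have a1 : 1 ≤ n1 (y - x) := hR.trans hc
  have s0 := pos _ a1
  obtain ⟨a4, a5⟩ := h0 μ σ R tc sc conc fun r hr => (le_max_left _ _).trans (big r hr)
  have a0 : n1 (y - x - 0) ≤ n1 (y - x) := by rw [sub_zero]
  have a2 : Var[fun ω => TT ω 0 (y - x); PE] ≤ ε * σ (n1 (y - x)) ^ 2 := by
    rcases hV _ a1 (r1.trans r4) with hl | hu
    · exact h3 0 (y - x) _ _ s0 ((le_max_right _ _).trans (big _ a1))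
        (a4 0 (y - x) _ a0 a1 (r1.trans r3)) (a5 0 (y - x) _ a0 a1 (r1.trans r3))
        (by rw [sub_zero]; exact hl.trans_le (min_le_left _ _))
    · exact h4 0 (y - x) _ _ s0 (tc.le_hh _)
        (a4 0 (y - x) _ a0 a1 (r1.trans r3)) (a5 0 (y - x) _ a0 a1 (r1.trans r3))
        (by rw [sub_zero]; exact hu.trans_le (min_le_right _ _))
  have a3 : Var[fun ω => TT ω x y; PE] = Var[fun ω => TT ω 0 (y - x); PE] := by
    have := (measurePreserving_tau x).variance_fun_comp (measurable_TT 0 (y - x)).aemeasurable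
    simpa [TT_tau] using this
  rw [← a3] at a2
  have a6 := h1 μ σ R tc sc conc (y - x) (n1 (y - x)) (tc.le _) (r1.trans r3)
  have a7 := tc.le_hh (y - x)
  have a8 := sc.mono _ _ (by linarith) r1
  have b1 := h2 (fun ω => TT ω x y) (μ (iv (y - x)) + B * σ (n1 (y - x))) _ (measurable_TT x y)
    (memLp_TT x y) s0 a2 (by rw [integral_TT]; nlinarith)
    ((a4 x y _ le_rfl a1 (r1.trans r3)).mono (by positivity) fun ω z hz => ⟨_, rfl, by linarith⟩)
  have b2 := h2 (fun ω => -TT ω x y) (-μ (iv (y - x)) + B * σ (n1 (y - x))) _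
    (measurable_TT x y).neg (memLp_TT x y).neg s0 (by rwa [variance_fun_neg])
    (by rw [integral_neg, integral_TT]; nlinarith)
    ((a5 x y _ le_rfl a1 (r1.trans r3)).mono (by positivity) fun ω z hz => ⟨_, rfl, by linarith⟩)
  rw [integral_TT] at b1
  rw [integral_neg, integral_TT] at b2
  exact ⟨b1.scale s0 a8, b2.scale s0 a8⟩

lemma sc_rpow (z8 : 8 ≤ Z) {A e : ℝ} (hA : 10 ^ 30 ≤ A) (h0 : 0 ≤ e) (h1 : Z ≤ (Z - 1) * 2 ^ e)
    (h2 : e ≤ 1 / 2) : Sc Z fun r => A * r ^ e := by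
  have A0 : 0 < A := lt_of_lt_of_le (by norm_num) hA
  refine ⟨z8, fun r hr => by positivity, fun r r' hr h => by gcongr, fun r k hr hk => ?_,
    fun r hr => ?_, fun r hr => ?_⟩
  · have a1 : (k ^ 2) ^ e ≤ k := by
      rw [← rpow_natCast, ← rpow_mul (by linarith)]
      exact (rpow_le_rpow_of_exponent_le hk (by push_cast; linarith)).trans (rpow_one k).le
    rw [mul_rpow (by positivity) hr]
    have a2 := mul_le_mul_of_nonneg_right a1 (show 0 ≤ A * r ^ e by positivity)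
    linarith
  · rw [div_rpow hr (by norm_num), ← mul_div_assoc, ← mul_div_assoc, div_le_iff₀ (by positivity)]
    have a2 := mul_le_mul_of_nonneg_right h1 (show 0 ≤ A * r ^ e by positivity)
    linarith
  · have := one_le_rpow hr h0
    nlinarith

lemma tail_conc {μ : ℝ × ℝ → ℝ} {σ : ℝ → ℝ} {B r : ℝ} (hμ : IsTC μ) (hs : Sc Z σ) (hB : 0 ≤ B)
    (hc : Conc σ r) (hU : UpB μ σ B (2 * r)) (r2 : 1 ≤ r) (v : VV) (r1 : n1 v ≤ r) (s : ℝ) :
    PE {ω | s ≤ |TT ω 0 v - μ (iv v)|} ≤ ENNReal.ofReal (6 * exp (B + 1) * exp (-(s / σ r))) := by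
  obtain ⟨a1, a2⟩ := estBase hμ hs hc hU hB le_rfl (by linarith : r ≤ 2 * r)
  have p0 : 0 < σ r := lt_of_lt_of_le (by norm_num) (hs.big r r2)
  obtain ⟨E1, -, b1, c1⟩ := dom_event (a1 0 v r (by rwa [sub_zero]) r2 le_rfl) (by positivity)
    (s / σ r - (B + 1))
  obtain ⟨E2, -, b2, c2⟩ := dom_event (a2 0 v r (by rwa [sub_zero]) r2 le_rfl) (by positivity)
    (s / σ r - (B + 1))
  have e2 : B * σ r + (s / σ r - (B + 1)) * (σ r / 1) = s - σ r := by
    field_simp; ring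
  simp only [sub_zero, e2] at c1 c2
  refine (measure_mono (t := E1 ∪ E2) fun ω hω => ?_).trans ((measure_union_le _ _).trans
    ((add_le_add b1 b2).trans ?_))
  · by_contra hc
    rw [mem_union, not_or] at hc
    have := abs_le.2 ⟨by linarith [c2 ω hc.2 _ rfl], c1 ω hc.1 _ rfl⟩
    exact absurd (le_trans hω this) (by linarith)
  · rw [← ENNReal.ofReal_add (by positivity) (by positivity)]
    refine ENNReal.ofReal_le_ofReal ?_
    rw [neg_sub, sub_eq_add_neg, exp_add]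
    linarith

lemma no_tail {μ : ℝ × ℝ → ℝ} (h : IsTC μ) {N : ℕ} {s q : ℝ} (s1 : 1 ≤ s)
    (hN : 10 ^ 15 * s ^ 5 ≤ N) (p0 : 0 ≤ q) (hq : 45000 * (N : ℝ) ^ 2 * q ≤ 1)
    (point : ∀ x : VV, n1 x ≤ 20 * N →
      PE {ω | s ≤ |TT ω 0 x - μ (iv x)|} ≤ ENNReal.ofReal q) : False := by
  have N1 : (1 : ℝ) ≤ N := by linarith [one_le_pow₀ (n := 5) s1]
  obtain ⟨v, hv, hb⟩ := core h N s1 hN
  refine absurd hb (not_lt.2 ((measure_biUnion_finset_le _ _).trans
    ((Finset.sum_le_card_nsmul _ _ (ENNReal.ofReal (q) +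
      ENNReal.ofReal (q)) fun w hw => ?_).trans ?_)))
  · have b1 : n1 w ≤ 14 * N := by
      have b2 := mem_box.1 hw
      simp only [Prod.fst_zero, Prod.snd_zero] at b2
      have b3 : |w.1| ≤ 7 * N := abs_le.2 ⟨by push_cast at b2; linarith [b2.1.1],
        by push_cast at b2; linarith [b2.2.1]⟩
      have b4 : |w.2| ≤ 7 * N := abs_le.2 ⟨by push_cast at b2; linarith [b2.1.2],
        by push_cast at b2; linarith [b2.2.2]⟩
      have b5 : |(w.1 : ℝ)| ≤ 7 * N := by exact_mod_cast b3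
      have b6 : |(w.2 : ℝ)| ≤ 7 * N := by exact_mod_cast b4
      unfold n1
      linarith
    refine (measure_union_le _ _).trans (add_le_add (point w (by linarith)) ?_)
    have b2 := n1_add_le v (-w)
    rw [n1_neg, ← sub_eq_add_neg] at b2
    refine le_trans (le_of_eq ?_) (point (v - w) (by linarith))
    rw [← (measurePreserving_tau w).measure_preimage
      (s := {ω | s ≤ |TT ω 0 (v - w) - μ (iv (v - w))|})
      (measurableSet_le measurable_const (by fun_prop)).nullMeasurableSet]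
    congr 1
    ext ω
    simp [TT_tau]
  · rw [card_box, nsmul_eq_mul, ← ENNReal.ofReal_add p0 p0, ← ENNReal.ofReal_natCast,
      ← ENNReal.ofReal_mul (by positivity)]
    refine ENNReal.ofReal_le_ofReal ?_
    have a2 : (((2 * (7 * N) + 1) ^ 2 : ℕ) : ℝ) ≤ (15 * N) ^ 2 := by
      push_cast
      gcongr
      linarith
    refine (mul_le_mul_of_nonneg_right a2 (by positivity)).trans ?_
    linarith

/-- In every large ball there is a point with both tails thick. -/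
theorem every {a : ℝ} (ha : a < 1 / 5) : ∃ p : ℝ, 0 < p ∧ ∃ n0 : ℕ, ∀ μ : ℝ × ℝ → ℝ, IsTC μ →
    ∀ n : ℕ, n0 ≤ n → ∃ v : VV, n1 v ≤ n ∧
      p ≤ PE.real {ω | TT ω 0 v ≤ μ (iv v) - (n : ℝ) ^ a} ∧
      p ≤ PE.real {ω | μ (iv v) + (n : ℝ) ^ a ≤ TT ω 0 v} := by
  obtain ⟨e, e0, e2, e3⟩ : ∃ e : ℝ, 0 ≤ e ∧ a ≤ e ∧ e < 1 / 5 :=
    ⟨max 0 a, le_max_left _ _, le_max_right _ _, max_lt (by norm_num) ha⟩
  obtain ⟨δ, hδ⟩ : ∃ δ, δ = (1 / 5 - e) / 3 := ⟨_, rfl⟩
  have δ0 : 0 < δ := by linarith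
  have w1 : (1 : ℝ) < 2 ^ δ := one_lt_rpow (by norm_num) δ0
  obtain ⟨Z, z8, z1⟩ : ∃ Z : ℝ, 8 ≤ Z ∧ Z ≤ (Z - 1) * 2 ^ δ := by
    refine ⟨max 8 (2 ^ δ / (2 ^ δ - 1)), le_max_left _ _, ?_⟩
    have := (div_le_iff₀ (by linarith)).1 (le_max_right 8 ((2 : ℝ) ^ δ / (2 ^ δ - 1)))
    linarith
  obtain ⟨p, c, K, p0, c0, h⟩ := oneStep z8
  obtain ⟨B, hB, hU⟩ := meanB z8
  obtain ⟨A, A1, A2, A4⟩ : ∃ A : ℝ, 10 ^ 30 ≤ A ∧ K ≤ A ∧ 1 / c ≤ A :=
    ⟨max (10 ^ 30) (max K (1 / c)), le_max_left _ _, (le_max_left _ _).trans (le_max_right _ _),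
      (le_max_right _ _).trans (le_max_right _ _)⟩
  rw [div_le_iff₀ c0] at A4
  have A0 : 0 < A := lt_of_lt_of_le (by norm_num) A1
  have hA : 0 < 1 / A := by positivity
  obtain ⟨n0, hn0⟩ := eventually_atTop.1 ((tendsto_natCast_atTop_atTop (R := ℝ)).eventually
    (((tendsto_rpow_atTop δ0).eventually
      (isLittleO_exp_neg_mul_rpow_atTop hA (-3 / δ)).eventuallyLE).and
      ((eventually_ge_atTop (270000 * exp (B + 1))).and
        ((tendsto_rpow_atTop (show 0 < 5 * δ by linarith)).eventually_ge_atTop (10 ^ 17)))))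
  refine ⟨p, p0, n0, fun μ hμ n hn => ?_⟩
  obtain ⟨h3, h4, h5⟩ := hn0 n hn
  have x1 : 1 ≤ exp (B + 1) := one_le_exp (by linarith)
  have N1 : (1 : ℝ) ≤ n := by linarith
  have N0 : (0 : ℝ) < n := by linarith
  rw [Real.norm_eq_abs, Real.norm_eq_abs, abs_of_pos (exp_pos _), ← rpow_mul N0.le,
    mul_div_cancel₀ _ δ0.ne', abs_of_pos (rpow_pos_of_pos N0 _)] at h3
  by_contra hc
  push Not at hc
  have n1e : 1 ≤ (n : ℝ) ^ e := one_le_rpow N1 e0
  have nae : (n : ℝ) ^ a ≤ (n : ℝ) ^ e := rpow_le_rpow_of_exponent_le N1 e2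
  have A5 : A ≤ A * (n : ℝ) ^ e := le_mul_of_one_le_right A0.le n1e
  have A6 : (n : ℝ) ^ e ≤ A * (n : ℝ) ^ e := le_mul_of_one_le_left (by linarith) (by linarith)
  have A7 : (n : ℝ) ^ e ≤ c * (A * (n : ℝ) ^ e) := by
    nlinarith [mul_le_mul_of_nonneg_right A4 (show 0 ≤ (n : ℝ) ^ e by linarith)]
  have hs : Sc Z fun r => A * (n : ℝ) ^ e * r ^ δ :=
    sc_rpow z8 (A1.trans A5) δ0.le z1 (by linarith)
  have big : ∀ r : ℝ, 1 ≤ r → A * (n : ℝ) ^ e ≤ A * (n : ℝ) ^ e * r ^ δ := fun r hr =>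
    le_mul_of_one_le_right (by linarith) (one_le_rpow hr δ0.le)
  have all : ∀ k : ℕ, Conc (fun r => A * (n : ℝ) ^ e * r ^ δ) (min (2 ^ k) n) := by
    intro k
    induction k with
    | zero =>
      intro x y r r1 r2 r3
      obtain rfl : r = 1 := le_antisymm (by simpa using r3.trans (min_le_left _ _)) r2
      have a2 : 4800 * sig 1 ≤ A * (n : ℝ) ^ e * (1 : ℝ) ^ δ := by
        rw [one_rpow]; linarith [sig_le_self le_rfl]
      have a3 := sig_pos r2
      exact ⟨(dom_up x y r1 r2).scale (by linarith) a2,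
        (dom_down x y r1 r2).scale (by linarith) a2⟩
    | succ k ih =>
      refine h μ _ _ _ hμ hs (fun r hr => A2.trans (A5.trans (big r hr))) ?_ (fun v hv hv' => ?_)
        (le_min (one_le_pow₀ (by norm_num)) N1) ih
      · rw [mul_min_of_nonneg _ _ (by norm_num : (0 : ℝ) ≤ 2), pow_succ']
        exact min_le_min le_rfl (by linarith)
      have b0 := big _ hv
      rcases lt_or_ge (PE.real {ω | TT ω 0 v ≤ μ (iv v) - (n : ℝ) ^ a}) p with h1 | h1
      · refine Or.inl (lt_of_le_of_lt (RF.low_mono _ ?_) h1)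
        linarith
      · have b2 : μ (iv v) + (n : ℝ) ^ a ≤ μ (iv v) + c * (A * (n : ℝ) ^ e * n1 v ^ δ) := by
          linarith [mul_le_mul_of_nonneg_left b0 c0.le]
        exact Or.inr (lt_of_le_of_lt (measureReal_mono fun ω hω => b2.trans hω)
          (hc v (hv'.trans (min_le_right _ _)) h1))
  obtain ⟨k, hk⟩ := pow_unbounded_of_one_lt (n : ℝ) (by norm_num : (1 : ℝ) < 2)
  have cn := all k
  rw [min_eq_right hk.le] at cn
  have d1 : 20 * ((n / 20 : ℕ) : ℝ) ≤ n := by exact_mod_cast Nat.mul_div_le n 20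
  have d2 : (n : ℝ) ≤ 20 * ((n / 20 : ℕ) : ℝ) + 20 := by
    exact_mod_cast (show n ≤ 20 * (n / 20) + 20 by omega)
  have d0 : (0 : ℝ) ≤ ((n / 20 : ℕ) : ℝ) := Nat.cast_nonneg _
  refine no_tail hμ (N := n / 20) (s := (n : ℝ) ^ (e + δ + δ))
    (q := 6 * exp (B + 1) * (n : ℝ) ^ (-3 : ℝ)) (one_le_rpow N1 (by linarith)) ?_
    (by positivity) ?_ fun x hx => ?_
  · have a1 : (n : ℝ) ^ (5 * δ) * ((n : ℝ) ^ (e + δ + δ)) ^ 5 = n := by
      rw [← rpow_natCast, ← rpow_mul N0.le, ← rpow_add N0,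
        show 5 * δ + (e + δ + δ) * ((5 : ℕ) : ℝ) = 1 by push_cast; linarith, rpow_one]
    have a2 := (mul_le_mul_of_nonneg_right h5 (by positivity)).trans a1.le
    linarith
  · have a1 : (n : ℝ) ^ (-3 : ℝ) = ((n : ℝ) ^ 3)⁻¹ := by
      rw [rpow_neg N0.le, ← rpow_natCast]; norm_num
    have a2 : ((n / 20 : ℕ) : ℝ) ^ 2 ≤ (n : ℝ) ^ 2 := pow_le_pow_left₀ d0 (by linarith) 2
    refine (mul_le_mul_of_nonneg_right (mul_le_mul_of_nonneg_left a2 (by norm_num))
      (by positivity)).trans ?_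
    rw [a1, show 45000 * (n : ℝ) ^ 2 * (6 * exp (B + 1) * ((n : ℝ) ^ 3)⁻¹) =
      270000 * exp (B + 1) / n by field_simp; ring, div_le_one N0]
    exact h4
  · refine (tail_conc hμ hs hB cn (hU μ _ _ hμ hs cn) N1 x (hx.trans d1) _).trans
      (ENNReal.ofReal_le_ofReal ?_)
    refine mul_le_mul_of_nonneg_left (le_trans (le_of_eq ?_) h3) (by positivity)
    rw [rpow_add N0, rpow_add N0]
    congr 1
    have := rpow_pos_of_pos N0 δ
    field_simp

end Pool.Agent.Lib.MP_de94ef_pr.Q.AS
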